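import Mathlib
import Pool.Agent.Helper11.ZO.Inv

/-!
# Permutations of the factors: the trace, and averages
-/

universe u v w

open CategoryTheory

namespace Pool.Agent.Helper59.ZO

open Pool.Agent.Helper10 SmProjVar

variable {k : Type u} [Field k] {K : Type v} [Field K] [CharZero K]
  (W : WeilCohomology.{u, v, w} k K)

lemma trL_extPow (X : SmProjVar k) (n : ℕ) (y : ℕ → W.H X) :
    W.trL (X.selfProd n) ((base W).extPow X n y) =
      ∏ j ∈ Finset.range (n + 1), W.trL X (y j) := by
  induction n with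
  | zero =>
    rw [Finset.prod_range_one]
    rfl
  | succ n ih =>
    rw [Finset.prod_range_succ, ← ih]
    exact W.tr_prod (X.selfProd n) X ((base W).extPow X n y) (y (n + 1))

lemma extPow_eq_prod (X : SmProjVar k) (n : ℕ) (y : ℕ → W.H X) :
    (base W).extPow X n y =
      (List.ofFn fun j : Fin (n + 1) => W.pullA (X.projPow n j) (y j)).prod := by
  induction n with
  | zero =>
    rw [List.ofFn_succ, List.ofFn_zero, List.prod_singleton]
    exact (W.pull_id X (y 0)).symm
  | succ n ih =>
    rw [List.ofFn_succ', List.concat_eq_append, List.prod_append, List.prod_singleton]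
    have h1 : W.pullA (X.projPow (n + 1) (Fin.last (n + 1) : Fin (n + 2)))
        (y (Fin.last (n + 1) : Fin (n + 2))) = W.pullA (snd (X.selfProd n) X) (y (n + 1)) := by
      have h2 : X.projPow (n + 1) (n + 1) = snd (X.selfProd n) X := if_pos rfl
      rw [Fin.val_last, h2]
      rfl
    have h3 : ∀ j : Fin (n + 1), W.pullA (X.projPow (n + 1) (j.castSucc : Fin (n + 2)))
        (y (j.castSucc : Fin (n + 2))) =
          W.pullA (fst (X.selfProd n) X) (W.pullA (X.projPow n j) (y j)) := by
      intro j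
      have h4 : X.projPow (n + 1) j = fst (X.selfProd n) X ≫ X.projPow n j :=
        if_neg (by have := j.2; omega)
      rw [Fin.val_castSucc, h4]
      exact W.pull_comp _ _ _
    have h5 : (List.ofFn fun j : Fin (n + 1) =>
        W.pullA (X.projPow (n + 1) (j.castSucc : Fin (n + 2)))
          (y (j.castSucc : Fin (n + 2)))).prod =
        W.pullA (fst (X.selfProd n) X) ((base W).extPow X n y) := by
      rw [ih, map_list_prod, List.map_ofFn]
      congr 2
      funext j
      exact h3 j
    rw [h5, h1]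
    rfl

/-- an even class with the same entries is invariant -/
lemma pull_extPow_const {X : SmProjVar k} {n : ℕ}
    {f : (X.selfProd n).toOver ⟶ (X.selfProd n).toOver} (hf : PermutesFactors X n f)
    {e : W.H X} (he : e ∈ W.evK X) :
    W.pullA f ((base W).extPow X n fun _ => e) = (base W).extPow X n fun _ => e := by
  obtain ⟨σ, hσ⟩ := hf
  rw [extPow_eq_prod, map_list_prod, List.map_ofFn]
  have h1 : (⇑(W.pullA f) ∘ fun j : Fin (n + 1) => W.pullA (X.projPow n j) e) =
      (fun j : Fin (n + 1) => W.pullA (X.projPow n j) e) ∘ σ := by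
    funext j
    change W.pullA f (W.pullA (X.projPow n j) e) = W.pullA (X.projPow n (σ j)) e
    rw [← hσ j, W.pullA_comp]
    rfl
  rw [h1]
  refine List.Perm.prod_eq' (Equiv.Perm.ofFn_comp_perm σ _) ?_
  rw [List.pairwise_ofFn]
  intro i j _
  change W.pullA (X.projPow n (σ i)) e * W.pullA (X.projPow n (σ j)) e =
    W.pullA (X.projPow n (σ j)) e * W.pullA (X.projPow n (σ i)) e
  exact W.evK_comm _ _ _ (W.pull_evK _ _ he)

/-- **Permutations of the factors preserve the trace.** -/
theorem trL_pull_perm {X : SmProjVar k} {n : ℕ}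
    {f : (X.selfProd n).toOver ⟶ (X.selfProd n).toOver} (hf : PermutesFactors X n f)
    (x : W.H (X.selfProd n)) : W.trL _ (W.pullA f x) = W.trL _ x := by
  obtain ⟨u, ⟨hu, hu1⟩, huniq⟩ := (W.trace (X.selfProd n)).bijective 1
  have hgr : ∀ v ∈ W.gr (X.selfProd n) (2 * (X.selfProd n).dim), v = W.trL _ v • u := by
    intro v hv
    obtain ⟨z, _, hz⟩ := (W.trace (X.selfProd n)).bijective (W.trL _ v)
    exact (hz v ⟨hv, rfl⟩).trans (hz (W.trL _ v • u) ⟨Submodule.smul_mem _ _ hu, by
      rw [(W.trace (X.selfProd n)).map_smul, hu1, mul_one]⟩).symm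
  have key : ∀ v : W.H (X.selfProd n), W.trL _ (W.pullA f v) =
      W.trL _ (W.pullA f u) * W.trL _ v := by
    intro v
    refine W.gr_induction (X.selfProd n) (p := fun v => W.trL _ (W.pullA f v) =
      W.trL _ (W.pullA f u) * W.trL _ v) ?_ ?_ ?_ v
    · intro i y hy
      by_cases hi : i = 2 * (X.selfProd n).dim
      · subst hi
        conv_lhs => rw [hgr y hy]
        rw [map_smul, map_smul, smul_eq_mul, mul_comm]
      · rw [W.tr_eq_zero_of_gr _ hi hy, mul_zero]
        exact W.tr_eq_zero_of_gr _ hi ((W.pull_hom f).map_mem i y hy)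
    · rw [map_zero, map_zero, mul_zero]
    · intro a b ha hb
      rw [map_add, map_add, map_add, ha, hb, mul_add]
  obtain ⟨e, ⟨he, he1⟩, -⟩ := (W.trace X).bijective 1
  have h1 := key ((base W).extPow X n fun _ => e)
  have he2 : W.trL (X.selfProd n) ((base W).extPow X n fun _ => e) = 1 := by
    rw [trL_extPow]
    have h3 : W.trL X e = 1 := he1
    simp [h3]
  rw [pull_extPow_const W hf (W.gr_le_evK X (even_two_mul _) he), he2, mul_one] at h1
  rw [key x, ← h1, one_mul]

/-- the morphism which permutes the factors -/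
noncomputable def permHom (X : SmProjVar k) (n : ℕ) (σ : Equiv.Perm (Fin (n + 1))) :
    (X.selfProd n).toOver ⟶ (X.selfProd n).toOver :=
  liftPow (fun j => X.projPow n (if h : j < n + 1 then ((σ ⟨j, h⟩ : Fin (n + 1)) : ℕ) else 0)) n

omit [CharZero K] in
lemma permHom_projPow (X : SmProjVar k) (n : ℕ) (σ : Equiv.Perm (Fin (n + 1)))
    (j : Fin (n + 1)) : permHom X n σ ≫ X.projPow n j = X.projPow n (σ j) := by
  unfold permHom
  rw [liftPow_projPow _ n j (by omega), dif_pos j.2]

omit [CharZero K] in
lemma permutesFactors_permHom (X : SmProjVar k) (n : ℕ) (σ : Equiv.Perm (Fin (n + 1))) :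
    PermutesFactors X n (permHom X n σ) := ⟨σ, permHom_projPow X n σ⟩

omit [CharZero K] in
lemma comp_permHom {X : SmProjVar k} {n : ℕ}
    {f : (X.selfProd n).toOver ⟶ (X.selfProd n).toOver} {τ : Equiv.Perm (Fin (n + 1))}
    (hf : ∀ j : Fin (n + 1), f ≫ X.projPow n j = X.projPow n (τ j))
    (σ : Equiv.Perm (Fin (n + 1))) : f ≫ permHom X n σ = permHom X n (τ * σ) := by
  refine hom_ext_pow n fun j hj => ?_
  have h1 := permHom_projPow X n σ ⟨j, by omega⟩
  have h2 := permHom_projPow X n (τ * σ) ⟨j, by omega⟩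
  have h3 := hf (σ ⟨j, by omega⟩)
  rw [Category.assoc]
  exact (congrArg (f ≫ ·) h1).trans (h3.trans h2.symm)

/-- the average over the permutations of the factors -/
noncomputable def avg (X : SmProjVar k) (n : ℕ) (x : W.H (X.selfProd n)) :
    W.H (X.selfProd n) :=
  ((Nat.factorial (n + 1) : K))⁻¹ • ∑ σ : Equiv.Perm (Fin (n + 1)), W.pullA (permHom X n σ) x

theorem symInvariant_avg (X : SmProjVar k) (n : ℕ) (x : W.H (X.selfProd n)) :
    SymInvariant W.toCohomologyData X n (avg W X n x) := by
  rintro f ⟨τ, hf⟩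
  change W.pullA f (avg W X n x) = avg W X n x
  unfold avg
  rw [map_smul, map_sum]
  congr 1
  have h1 : ∀ σ : Equiv.Perm (Fin (n + 1)), W.pullA f (W.pullA (permHom X n σ) x) =
      W.pullA (permHom X n (τ * σ)) x := by
    intro σ
    rw [← comp_permHom hf σ, W.pullA_comp]
    rfl
  rw [Finset.sum_congr rfl fun σ _ => h1 σ]
  exact Equiv.sum_comp (Equiv.mulLeft τ) fun σ => W.pullA (permHom X n σ) x

theorem trL_mul_avg {X : SmProjVar k} {n : ℕ} {y : W.H (X.selfProd n)}
    (hy : SymInvariant W.toCohomologyData X n y) (x : W.H (X.selfProd n)) :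
    W.trL _ (y * avg W X n x) = W.trL _ (y * x) := by
  unfold avg
  rw [mul_smul_comm, map_smul, Finset.mul_sum, map_sum]
  have h1 : ∀ σ : Equiv.Perm (Fin (n + 1)), W.trL _ (y * W.pullA (permHom X n σ) x) =
      W.trL _ (y * x) := by
    intro σ
    have h2 : W.pullA (permHom X n σ) y = y := hy _ (permutesFactors_permHom X n σ)
    conv_lhs => rw [← h2]
    rw [← map_mul, trL_pull_perm W (permutesFactors_permHom X n σ)]
  rw [Finset.sum_congr rfl fun σ _ => h1 σ, Finset.sum_const, Finset.card_univ,
    Fintype.card_perm, Fintype.card_fin, nsmul_eq_mul, smul_eq_mul, ← mul_assoc,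
    inv_mul_cancel₀ (by exact_mod_cast Nat.factorial_ne_zero _), one_mul]

/-- averages stay in subspaces which are stable under permutations of the factors -/
theorem avg_mem {X : SmProjVar k} {n : ℕ} {S : Submodule K (W.H (X.selfProd n))}
    {x : W.H (X.selfProd n)} (h : ∀ f, PermutesFactors X n f → W.pullA f x ∈ S) :
    avg W X n x ∈ S :=
  Submodule.smul_mem _ _ (Submodule.sum_mem _ fun σ _ =>
    h _ (permutesFactors_permHom X n σ))

end Pool.Agent.Helper59.ZO
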